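import Pool.Agent.P.MP_451a58_nt.Reg
import Pool.Agent.P.MP_78d079_nt.PNT

/-!
The averaged form of the question is equivalent to a law for the prime gaps at square indices.
-/

namespace Pool.Agent.P.MP_451a58_nt

open Filter Topology Real Finset Asymptotics

theorem pnt_real :
    Tendsto (fun x : ℝ => (Nat.primeCounting ⌊x⌋₊ : ℝ) * log x / x) atTop (𝓝 1) := by
  have h1 : Tendsto (fun x : ℝ => (Chebyshev.psi x - Chebyshev.theta x) / x) atTop (𝓝 0) := by
    refine (Chebyshev.isBigO_psi_sub_theta_sqrt.trans_isLittleO ?_).tendsto_div_nhds_zero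
    refine isLittleO_of_tendsto (by simp) ?_
    refine (tendsto_inv_atTop_zero.comp tendsto_sqrt_atTop).congr fun x => ?_
    simp only [Function.comp]
    rw [sqrt_div_self', one_div]
  have h2 : Tendsto (fun x : ℝ => ((Nat.primeCounting ⌊x⌋₊ : ℝ) - Chebyshev.theta x / log x) /
      (x / log x)) atTop (𝓝 0) := by
    refine (Chebyshev.primeCounting_sub_theta_div_log_isBigO.trans_isLittleO
      ?_).tendsto_div_nhds_zero
    refine isLittleO_of_tendsto' ?_ ?_
    · filter_upwards [eventually_gt_atTop 1] with x hx h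
      exact absurd h (div_pos (by linarith) (log_pos hx)).ne'
    · refine tendsto_log_atTop.inv_tendsto_atTop.congr' ?_
      filter_upwards [eventually_gt_atTop 1] with x hx
      have := (log_pos hx).ne'
      have : x ≠ 0 := by linarith
      simp only [Pi.inv_apply]
      field_simp
  have h3 := (Pool.Agent.P.MP_78d079_nt.pnt.sub h1).add h2
  rw [sub_zero, add_zero] at h3
  refine h3.congr' ?_
  filter_upwards [eventually_gt_atTop 1] with x hx
  have := (log_pos hx).ne'
  have : x ≠ 0 := by linarith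
  field_simp
  ring

theorem pnt_nat : Tendsto (fun x : ℕ => (Nat.primeCounting x : ℝ) * log x / x) atTop (𝓝 1) := by
  simpa [Function.comp_def] using pnt_real.comp nat_top

theorem pi_le (y : ℕ) : Nat.primeCounting y ≤ y := by
  rw [← Nat.primesLE_card_eq_primeCounting]
  refine (card_le_card (t := Icc 1 y) fun p hp => ?_).trans (by simp)
  rw [Nat.mem_primesLE] at hp
  exact mem_Icc.2 ⟨hp.2.pos, hp.1⟩

theorem pnt_unif {ε : ℝ} (hε : 0 < ε) :
    ∀ᶠ x : ℕ in atTop, ∀ y ≤ x, |(Nat.primeCounting y : ℝ) * log x - y| ≤ ε * x := by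
  obtain ⟨η, h0, h1, h2⟩ : ∃ η : ℝ, 0 < η ∧ η ≤ 1 / 2 ∧ 4 * η ≤ ε :=
    ⟨min (1 / 2) (ε / 4), by positivity, min_le_left _ _, by
      linarith [min_le_right (1 / 2) (ε / 4)]⟩
  obtain ⟨Y, hY⟩ := eventually_atTop.1 ((Metric.tendsto_nhds.1 pnt_nat η h0).and
    (nat_top.eventually_gt_atTop 1))
  have h3 : Tendsto (fun x : ℝ => (log x + 1) / x ^ η) atTop (𝓝 0) := by
    have h4 := ((isLittleO_log_rpow_atTop h0).tendsto_div_nhds_zero).add
      ((tendsto_const_nhds (x := (1 : ℝ))).div_atTop (tendsto_rpow_atTop h0))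
    rw [add_zero] at h4
    exact h4.congr fun x => by rw [add_div]
  have h4 : Tendsto (fun x : ℕ => (x : ℝ) ^ (1 - η)) atTop atTop :=
    (tendsto_rpow_atTop (by linarith)).comp nat_top
  filter_upwards [nat_top.eventually_gt_atTop 1, (h3.comp nat_top).eventually (gt_mem_nhds hε),
    h4.eventually_ge_atTop Y] with x hx h5 h6 y hy
  have hx0 : (0 : ℝ) < x := by linarith
  have hl : 0 < log x := log_pos hx
  have hy' : (y : ℝ) ≤ x := by exact_mod_cast hy
  have hp0 : (0 : ℝ) ≤ Nat.primeCounting y := Nat.cast_nonneg _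
  have hy0 : (0 : ℝ) ≤ y := Nat.cast_nonneg _
  by_cases hc : (y : ℝ) ≤ (x : ℝ) ^ (1 - η)
  · have h7 : (Nat.primeCounting y : ℝ) ≤ y := by exact_mod_cast pi_le y
    have h8 : (0 : ℝ) < (x : ℝ) ^ η := rpow_pos_of_pos hx0 _
    simp only [Function.comp] at h5
    rw [div_lt_iff₀ h8] at h5
    rw [rpow_sub hx0, rpow_one, le_div_iff₀ h8] at hc
    have h9 : (y : ℝ) * (log x + 1) ≤ ε * x := by nlinarith
    rw [abs_le]
    constructor <;> nlinarith
  · push Not at hc
    obtain ⟨h7, h8⟩ := hY y (by exact_mod_cast h6.trans hc.le)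
    have h9 : (1 - η) * log x ≤ log y := by
      rw [← log_rpow hx0]
      exact log_le_log (rpow_pos_of_pos hx0 _) hc.le
    have h10 : log y ≤ log x := log_le_log (by linarith) hy'
    rw [Real.dist_eq, abs_lt, lt_sub_iff_add_lt, sub_lt_iff_lt_add, lt_div_iff₀ (by linarith),
      div_lt_iff₀ (by linarith)] at h7
    have h11 := mul_le_mul_of_nonneg_left h9 hp0
    have h12 := mul_le_mul_of_nonneg_left h10 hp0
    have h13 : (Nat.primeCounting y : ℝ) * log x ≤ (1 + 4 * η) * y := by
      refine le_of_mul_le_mul_left ?_ (show 0 < 1 - η by linarith)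
      have h14 : (η + 1) * y ≤ (1 - η) * ((1 + 4 * η) * y) := by
        rw [← mul_assoc]
        exact mul_le_mul_of_nonneg_right (by nlinarith) hy0
      nlinarith [h7.2]
    rw [abs_le]
    constructor <;> nlinarith [h7.1]

/-- indicator of the admissible differences -/
noncomputable def ss (m : ℕ) : ℝ := if 1 ≤ m ∧ IsSquare (Nat.primeCounting m) then 1 else 0

/-- counting function of the admissible differences -/
noncomputable def MM (x : ℕ) : ℝ := ∑ m ∈ range x, ss m

/-- the quantity in the question -/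
noncomputable def NN (n : ℕ) : ℝ :=
  (((range n).filter fun p => p.Prime ∧ IsSquare (Nat.primeCounting (n - p))).card : ℝ)

theorem ss_nonneg (m : ℕ) : 0 ≤ ss m := by unfold ss; split_ifs <;> norm_num

theorem MM_mono : Monotone MM := fun _ _ h =>
  sum_le_sum_of_subset_of_nonneg (range_mono h) fun _ _ _ => ss_nonneg _

theorem MM_nonneg (x : ℕ) : 0 ≤ MM x := sum_nonneg fun _ _ => ss_nonneg _

theorem NN_eq (n : ℕ) :
    NN n = ∑ m ∈ range (n + 1), ss m * if (n - m).Prime then 1 else 0 := by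
  rw [← sum_range_reflect, sum_range_succ, NN, card_filter]
  push_cast
  simp only [ss, Nat.sub_self]
  simp only [nonpos_iff_eq_zero, one_ne_zero, false_and, if_false, zero_mul, add_zero]
  refine sum_congr rfl fun p hp => ?_
  have h1 := mem_range.1 hp
  rw [Nat.sub_sub_self h1.le]
  have h2 : 1 ≤ n - p := by omega
  by_cases h3 : p.Prime <;> by_cases h4 : IsSquare (Nat.primeCounting (n - p)) <;> simp [h2, h3, h4]

theorem pi_succ (y : ℕ) : (Nat.primeCounting (y + 1) : ℝ) =
    Nat.primeCounting y + if (y + 1).Prime then 1 else 0 := by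
  rw [Nat.primeCounting, Nat.primeCounting', Nat.count_succ]
  push_cast
  rfl

theorem sum_NN (x : ℕ) :
    ∑ n ∈ range x, NN n = ∑ m ∈ range x, ss m * Nat.primeCounting (x - 1 - m) := by
  induction x with
  | zero => simp
  | succ x ih =>
    rw [sum_range_succ, ih, NN_eq, sum_range_succ, sum_range_succ, ← add_assoc, ← sum_add_distrib]
    congr 1
    · refine sum_congr rfl fun m hm => ?_
      have h1 := mem_range.1 hm
      rw [show x + 1 - 1 - m = x - 1 - m + 1 by omega, pi_succ, mul_add,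
        show x - 1 - m + 1 = x - m by omega]
    · simp [Nat.not_prime_zero]

theorem sum_MM (x : ℕ) :
    ∑ k ∈ range x, MM k = ∑ m ∈ range x, ss m * ((x - 1 - m : ℕ) : ℝ) := by
  induction x with
  | zero => simp
  | succ x ih =>
    rw [sum_range_succ, ih, sum_range_succ, MM, ← sum_add_distrib]
    simp only [Nat.add_sub_cancel, Nat.sub_self, Nat.cast_zero, mul_zero, add_zero]
    refine sum_congr rfl fun m hm => ?_
    have h1 := mem_range.1 hm
    rw [show x - m = x - 1 - m + 1 by omega]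
    push_cast
    ring

theorem compare (a : ℝ) {C : ℝ} (hC : ∀ᶠ x : ℕ in atTop, MM x / ff (a + 1) x ≤ C) :
    Tendsto (fun x : ℕ => (∑ n ∈ range x, NN n) / (x * ff a x) -
      (∑ k ∈ range x, MM k) / (x * ff (a + 1) x)) atTop (𝓝 0) := by
  refine Metric.tendsto_nhds.2 fun ε hε => ?_
  have h0 : 0 < |C| + 1 := by positivity
  filter_upwards [hC, pnt_unif (div_pos hε h0), nat_top.eventually_gt_atTop 1] with x h1 h2 hx
  have h3 := ff_pos a hx
  have h4 := ff_pos (a + 1) hx
  have h5 := log_pos hx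
  have h6 : (0 : ℝ) < x := by linarith
  have h7 : (∑ n ∈ range x, NN n) / (x * ff a x) - (∑ k ∈ range x, MM k) / (x * ff (a + 1) x) =
      (∑ m ∈ range x, ss m * ((Nat.primeCounting (x - 1 - m) : ℝ) * log x -
        ((x - 1 - m : ℕ) : ℝ))) / (x * ff (a + 1) x) := by
    simp only [mul_sub, sum_sub_distrib, ← mul_assoc, ← sum_mul]
    rw [← sum_NN, ← sum_MM, ff_succ a hx]
    field_simp
  rw [Real.dist_eq, sub_zero, h7, abs_div, abs_of_pos (mul_pos h6 h4), div_lt_iff₀ (mul_pos h6 h4)]
  rw [div_le_iff₀ h4] at h1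
  calc _ ≤ ∑ m ∈ range x, ss m * (ε / (|C| + 1) * x) := by
        refine (abs_sum_le_sum_abs _ _).trans (sum_le_sum fun m _ => ?_)
        rw [abs_mul, abs_of_nonneg (ss_nonneg m)]
        exact mul_le_mul_of_nonneg_left (h2 _ (by omega)) (ss_nonneg m)
    _ = MM x * (ε / (|C| + 1) * x) := by rw [← sum_mul, MM]
    _ < (|C| + 1) * ff (a + 1) x * (ε / (|C| + 1) * x) := by
        refine mul_lt_mul_of_pos_right (h1.trans_lt ?_) (by positivity)
        exact mul_lt_mul_of_pos_right (by linarith [le_abs_self C]) h4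
    _ = _ := by field_simp

theorem bounded_of (a : ℝ) {d : ℝ}
    (h : Tendsto (fun x : ℕ => (∑ n ∈ range x, NN n) / (x * ff a x)) atTop (𝓝 d)) :
    ∃ C, ∀ᶠ x : ℕ in atTop, MM x / ff (a + 1) x ≤ C := by
  have h1 : Tendsto (fun x : ℕ => 2 * x + 1) atTop atTop :=
    tendsto_atTop_mono (fun x => by simp only [id]; omega) tendsto_id
  have h2 : Tendsto (fun x : ℕ => ((2 * x + 1 : ℕ) : ℝ) / x) atTop (𝓝 2) := by
    have h3 := (succ_ratio.comp nat_top).const_add 1
    rw [show (1 : ℝ) + 1 = 2 by norm_num] at h3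
    refine h3.congr' ?_
    filter_upwards [nat_top.eventually_gt_atTop 1] with x hx
    have : (x : ℝ) ≠ 0 := by linarith
    simp only [Function.comp]
    push_cast
    field_simp
    ring
  have h3 := (((h.comp h1).mul h2).mul (ff_ratio a two_pos nat_top h2)).div pnt_nat one_ne_zero
  refine ⟨d * 2 * √2 / 1 + 1, ?_⟩
  filter_upwards [h3.eventually (gt_mem_nhds (lt_add_one _)), nat_top.eventually_gt_atTop 1,
    pnt_nat.eventually (lt_mem_nhds one_pos)] with x h4 hx h5
  refine le_trans ?_ h4.le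
  have h6 := ff_pos a hx
  have h7 := log_pos hx
  have h8 : (0 : ℝ) < x := by linarith
  have h9 : (1 : ℝ) < (2 * x + 1 : ℕ) := by push_cast; linarith
  have h10 := ff_pos a h9
  have h11 : (0 : ℝ) < Nat.primeCounting x := by
    rw [lt_div_iff₀ h8, zero_mul] at h5
    exact (mul_pos_iff_of_pos_right h7).1 h5
  have h12 : MM x * Nat.primeCounting x ≤ ∑ n ∈ range (2 * x + 1), NN n := by
    rw [sum_NN, MM, sum_mul]
    refine le_trans (sum_le_sum fun m hm => ?_) (sum_le_sum_of_subset_of_nonneg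
      (range_mono (show x ≤ 2 * x + 1 by omega)) fun m _ _ =>
        mul_nonneg (ss_nonneg m) (Nat.cast_nonneg _))
    have := mem_range.1 hm
    exact mul_le_mul_of_nonneg_left (Nat.cast_le.2 (Nat.monotone_primeCounting (by omega)))
      (ss_nonneg m)
  simp only [Pi.div_apply, Function.comp]
  rw [ff_succ a hx]
  calc _ = MM x * Nat.primeCounting x / (Nat.primeCounting x * (ff a x * log x)) := by field_simp
    _ ≤ (∑ n ∈ range (2 * x + 1), NN n) / (Nat.primeCounting x * (ff a x * log x)) := by gcongr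
    _ = _ := by field_simp

theorem avg_iff (a c : ℝ) :
    Tendsto (fun x : ℕ => (∑ n ∈ range x, NN n) / ∑ n ∈ range x, ff a n) atTop (𝓝 c) ↔
      Tendsto (fun x : ℕ => MM x / ff (a + 1) x) atTop (𝓝 c) := by
  rw [ratio_iff]
  constructor
  · intro h
    obtain ⟨C, hC⟩ := bounded_of a h
    refine tauber _ MM_mono ?_
    have h1 := h.sub (compare a hC)
    rw [sub_zero] at h1
    exact h1.congr fun x => by ring
  · intro h
    have h1 := ((ratio_iff _).1 (sum_ratio _ h)).add
      (compare a ((h.eventually (gt_mem_nhds (lt_add_one c))).mono fun _ h => h.le))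
    rw [add_zero] at h1
    exact h1.congr fun x => by ring

/-- total length of the gaps with square index -/
noncomputable def GG (J : ℕ) : ℝ :=
  ∑ j ∈ Icc 1 J, ((Nat.nth Nat.Prime (j ^ 2) : ℝ) - Nat.nth Nat.Prime (j ^ 2 - 1))

theorem MM_nth (J : ℕ) : MM (Nat.nth Nat.Prime (J ^ 2)) = 1 + GG J := by
  have hi := Nat.infinite_setOfPred_prime
  induction J with
  | zero =>
    rw [show (0 : ℕ) ^ 2 = 0 by norm_num, Nat.nth_prime_zero_eq_two, MM, sum_range_succ,
      sum_range_one]
    simp [GG, ss]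
  | succ J ih =>
    have h1 : Nat.nth Nat.Prime (J ^ 2) ≤ Nat.nth Nat.Prime ((J + 1) ^ 2 - 1) :=
      Nat.nth_monotone hi (by ring_nf; omega)
    have h2 : Nat.nth Nat.Prime ((J + 1) ^ 2 - 1) ≤ Nat.nth Nat.Prime ((J + 1) ^ 2) :=
      Nat.nth_monotone hi (by omega)
    rw [GG, sum_Icc_succ_top (by omega), ← GG, ← add_assoc, ← ih, MM, MM,
      ← sum_range_add_sum_Ico _ h2, ← sum_range_add_sum_Ico _ h1]
    congr 1
    · rw [add_eq_left]
      refine sum_eq_zero fun m hm => if_neg ?_
      rintro ⟨-, r, hr⟩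
      obtain ⟨h3, h4⟩ := mem_Ico.1 hm
      have h5 := (Nat.lt_nth_iff_count_lt hi (b := m + 1)).2 (Nat.lt_succ_of_le h3)
      have h6 := (Nat.count_le_iff_le_nth hi (a := m + 1)).2 h4
      change Nat.count Nat.Prime (m + 1) = _ at hr
      rw [hr, ← sq] at h5 h6
      have h7 : J < r := lt_of_pow_lt_pow_left₀ 2 (Nat.zero_le _) h5
      have h8 : (J + 1) ^ 2 ≤ r ^ 2 := Nat.pow_le_pow_left h7 2
      omega
    · rw [← Nat.cast_sub h2]
      refine (sum_congr rfl (g := fun _ => (1 : ℝ)) fun m hm => if_pos ?_).trans (by simp)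
      obtain ⟨h3, h4⟩ := mem_Ico.1 hm
      have h5 := (Nat.lt_nth_iff_count_lt hi (b := m + 1)).2 (Nat.lt_succ_of_le h3)
      have h6 := (Nat.count_le_iff_le_nth hi (a := m + 1)).2 h4
      refine ⟨(Nat.prime_nth_prime _).pos.trans_le h3, J + 1, ?_⟩
      change Nat.count Nat.Prime (m + 1) = _
      rw [← sq]
      exact le_antisymm h6 (Nat.le_of_pred_lt h5)

/-- the normalisation on the side of the gaps -/
noncomputable def pp (e J : ℝ) : ℝ := J * (2 * log J) ^ e

theorem pp_pos (e : ℝ) {J : ℝ} (hJ : 1 < J) : 0 < pp e J :=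
  mul_pos (by linarith) (rpow_pos_of_pos (by linarith [log_pos hJ]) _)

theorem pp_ff (a : ℝ) {ι : Type} {F : Filter ι} {J x : ι → ℝ} (hx : Tendsto x F atTop)
    (hJ : Tendsto J F atTop) (h : Tendsto (fun i => J i ^ 2 * log (x i) / x i) F (𝓝 1)) :
    Tendsto (fun i => pp (a + 3 / 2) (J i) / ff (a + 1) (x i)) F (𝓝 1) := by
  have h1 := log_ratio one_pos hx h
  have h2 : Tendsto (fun i => log (log (x i)) / log (x i)) F (𝓝 0) :=
    isLittleO_log_id_atTop.tendsto_div_nhds_zero.comp (tendsto_log_atTop.comp hx)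
  have h3 : Tendsto (fun i => 2 * log (J i) / log (x i)) F (𝓝 1) := by
    have h4 := h1.sub h2
    rw [sub_zero] at h4
    refine h4.congr' ?_
    filter_upwards [hx.eventually_gt_atTop 1, hJ.eventually_gt_atTop 1] with i h5 h6
    rw [log_mul (by positivity) (log_pos h5).ne', log_pow]
    push_cast
    ring
  have h4 := h.sqrt.mul (h3.rpow_const (p := a + 3 / 2) (Or.inl one_ne_zero))
  rw [sqrt_one, one_rpow, mul_one] at h4
  refine h4.congr' ?_
  filter_upwards [hx.eventually_gt_atTop 1, hJ.eventually_gt_atTop 1] with i h5 h6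
  have h7 := log_pos h5
  have h8 := log_pos h6
  have h9 : 0 < √(x i) := sqrt_pos.2 (by linarith)
  have h10 : log (x i) ^ (a + 3 / 2) = log (x i) ^ (a + 1) * √(log (x i)) := by
    rw [sqrt_eq_rpow, ← rpow_add h7]
    congr 1
    ring
  have h11 : 0 < √(log (x i)) := sqrt_pos.2 h7
  have h12 := rpow_pos_of_pos h7 (a + 1)
  rw [div_rpow (by linarith) h7.le, sqrt_div' _ (by linarith), sqrt_mul (sq_nonneg _),
    sqrt_sq (by linarith), h10, pp, ff]
  field_simp

theorem pnt_count :
    Tendsto (fun x : ℕ => (Nat.count Nat.Prime x : ℝ) * log x / x) atTop (𝓝 1) := by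
  have h1 : Tendsto (fun x : ℝ => log x / x) atTop (𝓝 0) :=
    isLittleO_log_id_atTop.tendsto_div_nhds_zero
  have h2 := pnt_nat.sub (h1.comp nat_top)
  rw [sub_zero] at h2
  refine tendsto_of_tendsto_of_tendsto_of_le_of_le h2 pnt_nat (fun x => ?_) fun x => ?_
  · have h3 : (Nat.primeCounting x : ℝ) ≤ Nat.count Nat.Prime x + 1 := by
      have : Nat.primeCounting x ≤ Nat.count Nat.Prime x + 1 := by
        rw [Nat.primeCounting, Nat.primeCounting', Nat.count_succ]
        split_ifs <;> omega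
      exact_mod_cast this
    have h4 := log_natCast_nonneg x
    simp only [Function.comp]
    rw [← sub_div]
    refine div_le_div_of_nonneg_right ?_ (Nat.cast_nonneg _)
    nlinarith
  · have h4 := log_natCast_nonneg x
    have h3 : (Nat.count Nat.Prime x : ℝ) ≤ Nat.primeCounting x :=
      Nat.cast_le.2 (Nat.count_monotone _ (Nat.le_succ x))
    simp only
    gcongr

theorem sqrt_shift {K : ℕ → ℕ} (h1 : ∀ k, K k ≤ Nat.sqrt k + 1) (h2 : ∀ k, Nat.sqrt k ≤ K k + 1) :
    Tendsto (fun k : ℕ => (K k : ℝ) ^ 2 / k) atTop (𝓝 1) := by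
  have h3 : Tendsto (fun k : ℕ => 2 / √(k : ℝ)) atTop (𝓝 0) :=
    tendsto_const_nhds.div_atTop (tendsto_sqrt_atTop.comp nat_top)
  have h4 : Tendsto (fun k : ℕ => (K k : ℝ) / √(k : ℝ)) atTop (𝓝 1) := by
    have h5 := h3.const_sub 1
    have h6 := h3.const_add 1
    rw [sub_zero] at h5
    rw [add_zero] at h6
    refine tendsto_of_tendsto_of_tendsto_of_le_of_le' h5 h6 ?_ ?_
    · filter_upwards [nat_top.eventually_gt_atTop 0] with k hk
      have h7 : 0 < √(k : ℝ) := sqrt_pos.2 hk
      have h8 : (Nat.sqrt k : ℝ) ≤ K k + 1 := by exact_mod_cast h2 k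
      have h9 := real_sqrt_lt_nat_sqrt_succ (a := k)
      rw [le_div_iff₀ h7, sub_mul, div_mul_cancel₀ _ h7.ne']
      linarith
    · filter_upwards [nat_top.eventually_gt_atTop 0] with k hk
      have h7 : 0 < √(k : ℝ) := sqrt_pos.2 hk
      have h8 : (K k : ℝ) ≤ Nat.sqrt k + 1 := by exact_mod_cast h1 k
      have h9 := nat_sqrt_le_real_sqrt (a := k)
      rw [div_le_iff₀ h7, add_mul, div_mul_cancel₀ _ h7.ne']
      linarith
  have h5 := h4.pow 2
  rw [one_pow] at h5
  refine h5.congr fun k => ?_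
  rw [div_pow, sq_sqrt (Nat.cast_nonneg _)]

theorem one_add (b : ℝ) {ι : Type} {F : Filter ι} {g x : ι → ℝ} {c : ℝ} (hx : Tendsto x F atTop) :
    Tendsto (fun i => (1 + g i) / ff b (x i)) F (𝓝 c) ↔
      Tendsto (fun i => g i / ff b (x i)) F (𝓝 c) := by
  have h0 : Tendsto (fun i => 1 / ff b (x i)) F (𝓝 0) :=
    tendsto_const_nhds.div_atTop ((ff_top b).comp hx)
  constructor
  · intro h
    have h1 := h.sub h0
    rw [sub_zero] at h1
    exact h1.congr fun i => by ring
  · intro h
    have h1 := h.add h0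
    rw [add_zero] at h1
    exact h1.congr fun i => by ring

theorem shift_lim (a : ℝ) {c : ℝ} (h : Tendsto (fun J : ℕ => GG J / pp (a + 3 / 2) J) atTop (𝓝 c))
    {K : ℕ → ℕ} (h1 : ∀ k, K k ≤ Nat.sqrt k + 1) (h2 : ∀ k, Nat.sqrt k ≤ K k + 1) :
    Tendsto (fun x : ℕ => (1 + GG (K (Nat.count Nat.Prime x))) / ff (a + 1) x) atTop (𝓝 c) := by
  have h3 : Tendsto (Nat.count Nat.Prime) atTop atTop := Nat.tendsto_primeCounting'
  have h4 : Tendsto K atTop atTop := by
    refine tendsto_atTop.2 fun n => (eventually_ge_atTop ((n + 1) * (n + 1))).mono fun k hk => ?_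
    have := Nat.le_sqrt.2 hk
    have := h2 k
    omega
  have h5 := h4.comp h3
  have h6 : Tendsto (fun x : ℕ => (K (Nat.count Nat.Prime x) : ℝ) ^ 2 * log x / x) atTop (𝓝 1) := by
    have h7 := ((sqrt_shift h1 h2).comp h3).mul pnt_count
    rw [mul_one] at h7
    refine h7.congr' ?_
    filter_upwards [(nat_top.comp h3).eventually_gt_atTop 0] with x hx
    simp only [Function.comp] at hx ⊢
    field_simp
  have h7 := (h.comp h5).mul (pp_ff a nat_top (nat_top.comp h5) h6)
  rw [mul_one] at h7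
  refine (one_add _ nat_top).2 (h7.congr' ?_)
  filter_upwards [(nat_top.comp h5).eventually_gt_atTop 1] with x hx
  have := (pp_pos (a + 3 / 2) hx).ne'
  simp only [Function.comp] at this ⊢
  rw [div_mul_div_cancel₀ this]

theorem gap_iff (a c : ℝ) :
    Tendsto (fun x : ℕ => MM x / ff (a + 1) x) atTop (𝓝 c) ↔
      Tendsto (fun J : ℕ => GG J / pp (a + 3 / 2) J) atTop (𝓝 c) := by
  have hi := Nat.infinite_setOfPred_prime
  constructor
  · intro h
    have h1 : Tendsto (fun J : ℕ => Nat.nth Nat.Prime (J ^ 2)) atTop atTop :=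
      (Nat.nth_strictMono hi).tendsto_atTop.comp (tendsto_pow_atTop two_ne_zero)
    have h2 := h.comp h1
    simp only [Function.comp_def, MM_nth] at h2
    have h3 := pnt_count.comp h1
    simp only [Function.comp_def, Nat.count_nth_of_infinite hi, Nat.cast_pow] at h3
    have h4 := ((one_add _ (nat_top.comp h1)).1 h2).div (pp_ff a (nat_top.comp h1) nat_top h3)
      one_ne_zero
    rw [div_one] at h4
    refine h4.congr' ?_
    filter_upwards [(nat_top.comp h1).eventually_gt_atTop 1] with J hJ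
    simp only [Pi.div_apply]
    rw [div_div_div_cancel_right₀ (ff_pos _ hJ).ne']
  · intro h
    refine tendsto_of_tendsto_of_tendsto_of_le_of_le'
      (shift_lim a h (K := fun k => Nat.sqrt k - 1) (fun k => by omega) fun k => by omega)
      (shift_lim a h (K := fun k => Nat.sqrt k + 1) (fun k => by omega) fun k => by omega) ?_ ?_
    · filter_upwards [Nat.tendsto_primeCounting'.eventually_ge_atTop 1] with x hx
      refine div_le_div_of_nonneg_right ?_ (ff_nonneg _ _)
      rw [← MM_nth]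
      refine MM_mono ((Nat.lt_nth_iff_count_lt hi).1 ?_).le
      change 1 ≤ Nat.count Nat.Prime x at hx
      have h1 := Nat.sqrt_le' (Nat.count Nat.Prime x)
      have h2 : 0 < Nat.sqrt (Nat.count Nat.Prime x) := Nat.sqrt_pos.2 hx
      exact lt_of_lt_of_le (Nat.pow_lt_pow_left (by omega) two_ne_zero) h1
    · refine Eventually.of_forall fun x => div_le_div_of_nonneg_right ?_ (ff_nonneg _ _)
      rw [← MM_nth]
      exact MM_mono ((Nat.count_le_iff_le_nth hi).1 (Nat.lt_succ_sqrt' _).le)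

theorem main (a c : ℝ) :
    Tendsto (fun x : ℕ => (∑ n ∈ range x, NN n) / ∑ n ∈ range x, ff a n) atTop (𝓝 c) ↔
      Tendsto (fun J : ℕ => GG J / pp (a + 3 / 2) J) atTop (𝓝 c) :=
  (avg_iff a c).trans (gap_iff a c)

end Pool.Agent.P.MP_451a58_nt
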