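import Mathlib

/-!
Regularly varying weights `√x (log x)^b`: ratios, initial sums, and a Tauberian step.
-/

namespace Pool.Agent.P.MP_451a58_nt

open Filter Topology Real Finset Asymptotics

/-- the weight `√x (log x)^b` -/
noncomputable def ff (b x : ℝ) : ℝ := √x * log x ^ b

theorem ff_nonneg (b : ℝ) (n : ℕ) : 0 ≤ ff b n :=
  mul_nonneg (sqrt_nonneg _) (rpow_nonneg (log_natCast_nonneg n) _)

theorem ff_pos (b : ℝ) {x : ℝ} (hx : 1 < x) : 0 < ff b x :=
  mul_pos (sqrt_pos.2 (by linarith)) (rpow_pos_of_pos (log_pos hx) _)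

theorem ff_succ (b : ℝ) {x : ℝ} (hx : 1 < x) : ff (b + 1) x = ff b x * log x := by
  rw [ff, ff, rpow_add (log_pos hx), rpow_one, mul_assoc]

theorem nat_top : Tendsto (fun n : ℕ => (n : ℝ)) atTop atTop := tendsto_natCast_atTop_atTop

theorem log_ratio {ι : Type} {F : Filter ι} {u v : ι → ℝ} {l : ℝ} (hl : 0 < l)
    (hv : Tendsto v F atTop) (h : Tendsto (fun i => u i / v i) F (𝓝 l)) :
    Tendsto (fun i => log (u i) / log (v i)) F (𝓝 1) := by
  have h1 : Tendsto (fun i => 1 + log (u i / v i) / log (v i)) F (𝓝 (1 + 0)) :=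
    tendsto_const_nhds.add ((h.log hl.ne').div_atTop (tendsto_log_atTop.comp hv))
  rw [add_zero] at h1
  refine h1.congr' ?_
  filter_upwards [hv.eventually_gt_atTop 1, h.eventually (lt_mem_nhds hl)] with i h2 h3
  have h4 : 0 < log (v i) := log_pos h2
  have h5 : u i ≠ 0 := by rintro h5; simp [h5] at h3
  rw [log_div h5 (by linarith)]
  field_simp
  ring

theorem rpow_log_ratio (b : ℝ) {ι : Type} {F : Filter ι} {u v : ι → ℝ} {l : ℝ} (hl : 0 < l)
    (hv : Tendsto v F atTop) (h : Tendsto (fun i => u i / v i) F (𝓝 l)) :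
    Tendsto (fun i => log (u i) ^ b / log (v i) ^ b) F (𝓝 1) := by
  have h0 := log_ratio hl hv h
  have h1 := h0.rpow_const (p := b) (Or.inl one_ne_zero)
  rw [one_rpow] at h1
  refine h1.congr' ?_
  filter_upwards [hv.eventually_gt_atTop 1, h0.eventually (lt_mem_nhds one_pos)] with i h2 h3
  have h4 : 0 < log (v i) := log_pos h2
  rw [div_rpow ((div_pos_iff_of_pos_right h4).1 h3).le h4.le]

theorem ff_ratio (b : ℝ) {ι : Type} {F : Filter ι} {u v : ι → ℝ} {l : ℝ} (hl : 0 < l)
    (hv : Tendsto v F atTop) (h : Tendsto (fun i => u i / v i) F (𝓝 l)) :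
    Tendsto (fun i => ff b (u i) / ff b (v i)) F (𝓝 √l) := by
  have h1 := h.sqrt.mul (rpow_log_ratio b hl hv h)
  rw [mul_one] at h1
  refine h1.congr' ?_
  filter_upwards [hv.eventually_gt_atTop 1] with i h2
  rw [ff, ff, sqrt_div' _ (by linarith), mul_div_mul_comm]

theorem succ_ratio : Tendsto (fun x : ℝ => (x + 1) / x) atTop (𝓝 1) := by
  have h1 : Tendsto (fun x : ℝ => 1 + x⁻¹) atTop (𝓝 (1 + 0)) :=
    tendsto_const_nhds.add tendsto_inv_atTop_zero
  rw [add_zero] at h1
  refine h1.congr' ?_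
  filter_upwards [eventually_gt_atTop 0] with x hx
  field_simp

theorem ff_top (b : ℝ) : Tendsto (ff b) atTop atTop := by
  have h1 := (isLittleO_log_rpow_rpow_atTop (-b) (s := 1 / 2) (by norm_num)).tendsto_div_nhds_zero
  have h2 : Tendsto (fun x : ℝ => log x ^ (-b) / x ^ (1 / 2 : ℝ)) atTop (𝓝[>] 0) := by
    refine tendsto_nhdsWithin_iff.2 ⟨h1, ?_⟩
    filter_upwards [eventually_gt_atTop 1] with x hx
    exact div_pos (rpow_pos_of_pos (log_pos hx) _) (rpow_pos_of_pos (by linarith) _)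
  refine (tendsto_inv_nhdsGT_zero.comp h2).congr' ?_
  filter_upwards [eventually_gt_atTop 1] with x hx
  simp only [Function.comp, ff]
  rw [inv_div, rpow_neg (log_pos hx).le, sqrt_eq_rpow, div_inv_eq_mul]

theorem ff_step (b : ℝ) :
    Tendsto (fun x : ℝ => x * (ff b (x + 1) / ff b x - 1)) atTop (𝓝 (1 / 2)) := by
  have h1 := tendsto_mul_log_one_add_div_atTop 1
  have h2 : Tendsto (fun x : ℝ => x * log (log (x + 1) / log x)) atTop (𝓝 0) := by
    refine squeeze_zero' ?_ ?_ (h1.div_atTop tendsto_log_atTop)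
    · filter_upwards [eventually_gt_atTop 1] with x hx
      refine mul_nonneg (by linarith) (log_nonneg ?_)
      rw [one_le_div (log_pos hx)]
      exact log_le_log (by linarith) (by linarith)
    · filter_upwards [eventually_gt_atTop 1] with x hx
      have h3 : 0 < log x := log_pos hx
      have h4 : 0 < log (x + 1) := log_pos (by linarith)
      have h5 : log (1 + 1 / x) = log (x + 1) - log x := by
        rw [← log_div (by linarith) (by linarith)]
        congr 1
        field_simp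
      rw [mul_div_assoc, h5]
      refine mul_le_mul_of_nonneg_left ((log_le_sub_one_of_pos (div_pos h4 h3)).trans_eq ?_)
        (by linarith)
      field_simp
  set w : ℝ → ℝ := fun x => 1 / 2 * log (1 + 1 / x) + b * log (log (x + 1) / log x) with hw
  have h3 : Tendsto (fun x => x * w x) atTop (𝓝 (1 / 2)) := by
    have h4 := (h1.const_mul (1 / 2)).add (h2.const_mul b)
    simp only [mul_one, mul_zero, add_zero] at h4
    refine h4.congr fun x => ?_
    simp only [hw]
    ring
  have h4 : Tendsto w atTop (𝓝 0) := by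
    refine (h3.div_atTop tendsto_id).congr' ?_
    filter_upwards [eventually_gt_atTop 0] with x hx
    simp only [id]
    field_simp
  have h5 : Tendsto (fun x => x * (exp (w x) - 1 - w x)) atTop (𝓝 0) := by
    have h6 := h3.mul h4
    rw [mul_zero] at h6
    refine squeeze_zero_norm' ?_ h6
    filter_upwards [eventually_gt_atTop 0, h4.abs.eventually
      (gt_mem_nhds (show |(0 : ℝ)| < 1 by simp))] with x hx h7
    rw [norm_mul, Real.norm_of_nonneg hx.le, mul_assoc, ← sq]
    exact mul_le_mul_of_nonneg_left (abs_exp_sub_one_sub_id_le h7.le) hx.le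
  have h6 := h3.add h5
  rw [add_zero] at h6
  refine h6.congr' ?_
  filter_upwards [eventually_gt_atTop 1] with x hx
  have h7 : 0 < log x := log_pos hx
  have h8 : 0 < log (x + 1) := log_pos (by linarith)
  have h9 : exp (w x) = ff b (x + 1) / ff b x := by
    have h10 : 1 + 1 / x = (x + 1) / x := by field_simp
    simp only [hw]
    rw [exp_add, mul_comm (1 / 2 : ℝ), mul_comm b, ← rpow_def_of_pos (by positivity),
      ← rpow_def_of_pos (div_pos h8 h7), ← sqrt_eq_rpow, h10, sqrt_div' _ (by linarith),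
      div_rpow h8.le h7.le, ff, ff, mul_div_mul_comm]
  rw [← h9]
  ring

theorem sum_ff_top (b : ℝ) : Tendsto (fun x : ℕ => ∑ k ∈ range x, ff b k) atTop atTop := by
  refine (not_summable_iff_tendsto_nat_atTop_of_nonneg (ff_nonneg b)).1 fun h => ?_
  exact not_tendsto_nhds_of_tendsto_atTop ((ff_top b).comp nat_top) 0 h.tendsto_atTop_zero

/-- summation of asymptotic relations -/
theorem sum_ratio (b : ℝ) {g : ℕ → ℝ} {c : ℝ} (h : Tendsto (fun k => g k / ff b k) atTop (𝓝 c)) :
    Tendsto (fun x : ℕ => (∑ k ∈ range x, g k) / ∑ k ∈ range x, ff b k) atTop (𝓝 c) := by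
  have h1 : (fun k : ℕ => g k - c * ff b k) =o[atTop] fun k => ff b k := by
    refine (isLittleO_iff_tendsto' ?_).2 ?_
    · filter_upwards [nat_top.eventually_gt_atTop 1] with k hk h0
      exact absurd h0 (ff_pos b hk).ne'
    · have h2 := h.sub_const c
      rw [sub_self] at h2
      refine h2.congr' ?_
      filter_upwards [nat_top.eventually_gt_atTop 1] with k hk
      have := (ff_pos b hk).ne'
      field_simp
  have h2 := (h1.sum_range (ff_nonneg b) (sum_ff_top b)).tendsto_div_nhds_zero.add_const c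
  rw [zero_add] at h2
  refine h2.congr' ?_
  filter_upwards [(sum_ff_top b).eventually_gt_atTop 0] with x hx
  rw [sum_sub_distrib, ← mul_sum]
  field_simp
  ring

theorem sum_ff (b : ℝ) :
    Tendsto (fun x : ℕ => (∑ k ∈ range x, ff b k) / (x * ff b x)) atTop (𝓝 (2 / 3)) := by
  have h1 : Tendsto (fun k : ℕ => (((k + 1 : ℕ) : ℝ) * ff b (k + 1 : ℕ) - k * ff b k) / ff b k)
      atTop (𝓝 (3 / 2)) := by
    have h2 := ((ff_step b).add (ff_ratio b one_pos tendsto_id succ_ratio)).comp nat_top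
    rw [sqrt_one, show (1 / 2 + 1 : ℝ) = 3 / 2 by norm_num] at h2
    refine h2.congr' ?_
    filter_upwards [nat_top.eventually_gt_atTop 1] with k hk
    have := (ff_pos b hk).ne'
    simp only [Function.comp, id, Nat.cast_add, Nat.cast_one]
    field_simp
    ring
  have h2 := (sum_ratio b h1).inv₀ (by norm_num)
  rw [show ((3 / 2 : ℝ))⁻¹ = 2 / 3 by norm_num] at h2
  refine h2.congr fun x => ?_
  rw [sum_range_sub (fun k : ℕ => (k : ℝ) * ff b k), inv_div]
  simp

/-- dividing by the initial sums or by `x ff x` is the same -/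
theorem ratio_iff (b : ℝ) {A : ℕ → ℝ} {c : ℝ} :
    Tendsto (fun x : ℕ => A x / ∑ k ∈ range x, ff b k) atTop (𝓝 c) ↔
      Tendsto (fun x : ℕ => A x / (x * ff b x)) atTop (𝓝 (c * (2 / 3))) := by
  constructor
  · intro h
    refine (h.mul (sum_ff b)).congr' ?_
    filter_upwards [(sum_ff_top b).eventually_gt_atTop 0] with x hx
    field_simp
  · intro h
    have h1 := h.div (sum_ff b) (by norm_num)
    rw [show c * (2 / 3) / (2 / 3) = c by ring] at h1
    refine h1.congr' ?_
    filter_upwards [nat_top.eventually_gt_atTop 1] with x hx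
    have := (ff_pos b hx).ne'
    have h2 : (x : ℝ) ≠ 0 := by linarith
    simp only [Pi.div_apply]
    rw [div_div_div_cancel_right₀ (mul_ne_zero h2 this)]

theorem diff_quot (b : ℝ) {B : ℕ → ℝ} {d t : ℝ} (ht : 0 < t) (ht1 : t ≠ 1)
    (h : Tendsto (fun x : ℕ => B x / (x * ff b x)) atTop (𝓝 d)) :
    Tendsto (fun x : ℕ => (B ⌊t ^ 2 * x⌋₊ - B x) / ((⌊t ^ 2 * x⌋₊ : ℝ) - x) / ff b x) atTop
      (𝓝 (d * ((t ^ 2 + t + 1) / (t + 1)))) := by
  have h1 : Tendsto (fun x : ℕ => (⌊t ^ 2 * x⌋₊ : ℝ) / x) atTop (𝓝 (t ^ 2)) :=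
    (tendsto_nat_floor_mul_div_atTop (sq_nonneg t)).comp nat_top
  have h2 : Tendsto (fun x : ℕ => ⌊t ^ 2 * x⌋₊) atTop atTop :=
    tendsto_nat_floor_atTop.comp (nat_top.const_mul_atTop (by positivity))
  have h3 := ff_ratio b (by positivity) nat_top h1
  rw [sqrt_sq ht.le] at h3
  have h4 : t ^ 2 - 1 ≠ 0 := by
    rw [show t ^ 2 - 1 = (t - 1) * (t + 1) by ring]
    exact mul_ne_zero (sub_ne_zero.2 ht1) (by positivity)
  have h5 := ((((h.comp h2).mul h1).mul h3).sub h).div (h1.sub_const 1) h4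
  have h6 : (d * t ^ 2 * t - d) / (t ^ 2 - 1) = d * ((t ^ 2 + t + 1) / (t + 1)) := by
    have : t + 1 ≠ 0 := by positivity
    field_simp
    ring
  rw [h6] at h5
  refine h5.congr' ?_
  filter_upwards [nat_top.eventually_gt_atTop 1, (nat_top.comp h2).eventually_gt_atTop 1,
    (h1.sub_const 1).eventually_ne h4] with x hx hu h7
  have h8 := (ff_pos b hx).ne'
  have h9 := (ff_pos b hu).ne'
  simp only [Function.comp] at hu h9
  have h10 : (x : ℝ) ≠ 0 := by linarith
  have h11 : (⌊t ^ 2 * x⌋₊ : ℝ) ≠ 0 := by linarith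
  have h12 : (⌊t ^ 2 * x⌋₊ : ℝ) - x ≠ 0 := by
    intro h13
    apply h7
    rw [sub_eq_zero] at h13
    rw [h13, div_self h10, sub_self]
  simp only [Pi.div_apply, Function.comp]
  field_simp

/-- the Tauberian step for monotone sequences -/
theorem tauber (b : ℝ) {M : ℕ → ℝ} (hM : Monotone M) {c : ℝ}
    (h : Tendsto (fun x : ℕ => (∑ k ∈ range x, M k) / (x * ff b x)) atTop (𝓝 (c * (2 / 3)))) :
    Tendsto (fun x : ℕ => M x / ff b x) atTop (𝓝 c) := by
  have hk : Tendsto (fun t : ℝ => c * (2 / 3) * ((t ^ 2 + t + 1) / (t + 1))) (𝓝 1) (𝓝 c) := by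
    have h1 : ContinuousAt (fun t : ℝ => c * (2 / 3) * ((t ^ 2 + t + 1) / (t + 1))) 1 := by
      fun_prop (disch := norm_num)
    have h2 := h1.tendsto
    rwa [show c * (2 / 3) * (((1 : ℝ) ^ 2 + 1 + 1) / (1 + 1)) = c by ring] at h2
  refine tendsto_order.2 ⟨fun a ha => ?_, fun a ha => ?_⟩
  · obtain ⟨t, ⟨h1, h2⟩, h3⟩ := (((hk.eventually (lt_mem_nhds ha)).and
      (lt_mem_nhds one_pos)).filter_mono (nhdsWithin_le_nhds (s := Set.Iio 1))).and
      self_mem_nhdsWithin |>.exists
    replace h3 : t < 1 := h3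
    filter_upwards [(diff_quot b h2 h3.ne h).eventually (lt_mem_nhds h1),
      nat_top.eventually_gt_atTop 1] with x h4 hx
    refine h4.trans_le (div_le_div_of_nonneg_right ?_ (ff_pos b hx).le)
    have h5 : ⌊t ^ 2 * x⌋₊ < x := by
      rw [Nat.floor_lt (by positivity)]
      have : t ^ 2 < 1 := by nlinarith
      nlinarith
    have h6 : (⌊t ^ 2 * x⌋₊ : ℝ) < x := by exact_mod_cast h5
    rw [← neg_div_neg_eq, neg_sub, neg_sub, div_le_iff₀ (by linarith),
      ← sum_Ico_eq_sub _ h5.le]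
    refine (sum_le_card_nsmul _ _ (M x) fun k hk => hM (mem_Ico.1 hk).2.le).trans_eq ?_
    rw [Nat.card_Ico, nsmul_eq_mul, Nat.cast_sub h5.le, mul_comm]
  · obtain ⟨t, h1, h3⟩ := ((hk.eventually (gt_mem_nhds ha)).filter_mono
      (nhdsWithin_le_nhds (s := Set.Ioi 1))).and self_mem_nhdsWithin |>.exists
    have h3' : 1 < t := h3
    have h7 : Tendsto (fun x : ℕ => (t ^ 2 - 1) * x) atTop atTop :=
      nat_top.const_mul_atTop (by nlinarith)
    filter_upwards [(diff_quot b (by linarith) h3'.ne' h).eventually (gt_mem_nhds h1),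
      nat_top.eventually_gt_atTop 1, h7.eventually_ge_atTop 1] with x h4 hx h8
    refine lt_of_le_of_lt (div_le_div_of_nonneg_right ?_ (ff_pos b hx).le) h4
    have h5 : x + 1 ≤ ⌊t ^ 2 * x⌋₊ := by
      refine Nat.le_floor ?_
      push_cast
      linarith
    have h6 : (x : ℝ) < ⌊t ^ 2 * x⌋₊ := by exact_mod_cast h5
    have h9 : x ≤ ⌊t ^ 2 * x⌋₊ := by omega
    rw [le_div_iff₀ (by linarith), ← sum_Ico_eq_sub _ h9]
    refine le_trans (le_of_eq ?_) (card_nsmul_le_sum _ _ (M x) fun k hk => hM (mem_Ico.1 hk).1)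
    rw [Nat.card_Ico, nsmul_eq_mul, Nat.cast_sub h9, mul_comm]

end Pool.Agent.P.MP_451a58_nt
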